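import Pool.Agent.Helper22_DEN3.Pln
import Pool.Agent.Helper22_DEN3.Pub3

/-!
# Equidistribution of the Hecke eigenvalues in families of cusp forms over `𝔽_q(t)`

`G` is a split simply laced group (types `A`, `D`, `E₆`, `E₇`, `E₈` and sums) over `F = 𝔽_q((1/t))`,
`X = G(F) / G(𝒪)`.  For every cuspidal unitary character `ψ` of `Γ(M)` trivial on `Γ(N)`, the space
`V_ψ` of the `ψ`-equivariant functions on `X` consists of cusp forms of level `N`, its dimension is at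
least `q ^ (-(dim G)²) [Γ : Γ(M)]`, and the trace on `V_ψ` of the product of spherical Hecke operators
at `∞` and at the places dividing `Q` is the value at `1` of the Hecke functions times the dimension,
up to a power saving error.  Such characters exist, with `N = M P₀²`, if `P₀² ∣ M`.
-/

open scoped BigOperators

open Pool.Agent.DEN Pool.Agent.DEN.Pub

theorem Pool.Agent.Results.MP_eadad4_nt.Equidistribution.result
    {r : ℕ} (hr : 0 < r) (C : Matrix (Fin r) (Fin r) ℤ) (hC : SimplyLaced C)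
    (K : Type) [Field K] [Finite K] (M : Polynomial K) (hM : 0 < M.natDegree) :
    -- cuspidal characters exist
    (∀ P₀ : Polynomial K, Irreducible P₀ → P₀ ^ 2 ∣ M →
      ∃ ψ : G C K → ℂ, IsCuspChar M (M * P₀ ^ 2) ψ) ∧
    ∀ N : Polynomial K, N ≠ 0 → M ∣ N → ∀ ψ : G C K → ℂ, IsCuspChar M N ψ →
      -- the space `V_ψ`
      (∀ f : VT M ψ, Pub.IsCusp N f.fn) ∧
      FinV M ψ ∧
      idx C M ≤ Nat.card K ^ dimG C ^ 2 * dimV M ψ ∧
      -- equidistribution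
      ∀ e : ℕ, LeHeights C e → ∀ Q : Polynomial K, Q ≠ 0 → IsCoprime Q N →
        ∀ (κ : G C K → ℂ) (ρ : ℕ) (A : ℝ), Pub.HeckeInf κ ρ → (∀ g, ‖κ g‖ ≤ A) →
        ∀ (κ' : GP C K Q → ℂ) (ρ' : ℕ) (A' : ℝ), Pub.HeckeFin Q κ' ρ' → (∀ g, ‖κ' g‖ ≤ A') →
        ρ + ρ' * Q.natDegree < M.natDegree →
        ∃ T : Op M ψ, IsHecke M N Q ψ κ κ' T ∧
          ‖T.tr - κ 1 * κ' 1 * dimV M ψ‖ ≤
            A * A' * (N.natDegree : ℝ) ^ r * idx C M *
              ((Nat.card K : ℝ) ^ (e * (M.natDegree - 1 - (ρ + ρ' * Q.natDegree))))⁻¹ := by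
  have hM0 : M ≠ 0 := by
    rintro rfl
    simp at hM
  refine ⟨fun P₀ hP₀ hPM => ?_, fun N hN hMN ψ hψ => ?_⟩
  · obtain ⟨ψ, h1, h2, h3, h4⟩ := H222.hChr r C hC K P₀ M hP₀.prime hM0 hPM
    exact ⟨ψ, h1, h2, fun a ha => (h3 a ha).2, h4⟩
  · obtain ⟨h1, h2, h3, h4⟩ :=
      H223.pln r C hC K hr M N hM hN hMN ψ hψ.mul hψ.norm_one hψ.triv hψ.cusp
    exact ⟨fun f => h1 f.1 f.2, h2, h3, h4⟩
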