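import Pool.Agent.Helper97_WHC.Main

/-!
# Globally generic cusp forms over `𝔽_q(t)` in harmonic weights

`G` is a split simply laced group (types `A`, `D`, `E₆`, `E₇`, `E₈` and sums) over `F = 𝔽_q((1/t))`,
`X = G(F) / G(𝒪)`, `α_i` the simple roots, `(,)` the invariant form with `(α_i, α_i) = 2`.  The cusp
forms of level `N` have an orthonormal basis of eigenforms `f_j` of the spherical Hecke operators at
`∞`; let `s_j` be the Satake parameter of `f_j`.

Let `χ` be a unitary character of `U`, trivial on `U ∩ Γ(N)`, of conductor `c_i` at `α_i` (so `χ` is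
generic), `m` with `0 ≤ (α_i, m) ≤ c_i`, `W_j` the Whittaker coefficient of `f_j` at `t^m`, `V` the
volume of `U ∩ Γ(N) \ U` (for the measure giving the stabilizer of the vertex `t^m K` volume `1`).
Only the globally generic forms have a nonzero `W_j`.  The constants depend only on the root system.

* The total weight `∑ |W_j|²` is at most `V`.
* The weight of the forms whose Satake parameter is not unitary is at most `A V / D`, if
  `D ≤ (α_i, m) ≤ c_i - D`.
* Let `c_i = (α_i, M)`, `M` in the root lattice, and `b ≤ c_i - (α_i, m) ≤ E`.  Then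
  `∑ |S_l(s_j)|² |W_j|² ≤ A V` for all `l` with `B (E + 1) ≤ (α_i, l) ≤ c_i - B (E + 1)`, where
  `S_l(s)` is the sum of `s` over the orbit of `l` under the Weyl group, and the weight of the forms
  with `|s_j(w 2ρ)| ≥ q ^ x` for some `w` is at most `A k ^ B q ^ (-2 x k) V`, for all `k` with
  `B (E + 1) ≤ 2 k ≤ c_i - B (E + 1)` (density theorem).
* If `P₀⁴` divides `N`, `P₀` irreducible, the character `u ↦ e (res (P₀ ∑ u_i / N))` has conductor
  `deg N - deg P₀ - 2`, and the total weight is at least `q ^ (-2 deg P₀ (dim G)²) V`.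
-/

open scoped BigOperators

open Pool.Agent.DEN Pool.Agent.DEN.Pub

theorem Pool.Agent.Results.MP_eadad4_nt.GenericForms.result
    {r : ℕ} (C : Matrix (Fin r) (Fin r) ℤ) (hC : SimplyLaced C) :
    ∃ A b B : ℕ, ∀ (K : Type) [Field K] [Finite K] (N : Polynomial K), 0 < N.natDegree →
      -- there is an orthonormal basis of eigenforms with Satake parameters
      (∃ (n : ℕ) (f : Fin n → X C K → ℂ) (s : Fin n → (Fin r → ℤ) → ℂ), IsEigenfamily N f s ∧
        ∀ g, Pub.IsCusp N g → g ∈ Submodule.span ℂ (Set.range f)) ∧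
      ∀ (n : ℕ) (f : Fin n → X C K → ℂ) (s : Fin n → (Fin r → ℤ) → ℂ), IsEigenfamily N f s →
        (∀ (χ : G C K → ℂ) (c : Fin r → ℤ), IsUChar N χ → IsCond χ c → ∀ m : Fin r → ℤ,
            (∀ i, 0 ≤ ip C (Pi.single i 1) m ∧ ip C (Pi.single i 1) m ≤ c i) →
            -- the total weight is at most the volume
            0 < hvol C N m ∧
            ∑ j, ‖whit N χ m (f j)‖ ^ 2 ≤ hvol C N m ∧
            -- the forms whose Satake parameter is not unitary
            (∀ D : ℕ, (∀ i, (D : ℤ) ≤ ip C (Pi.single i 1) m ∧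
                ip C (Pi.single i 1) m + D ≤ c i) →
              D * ∑ᶠ j ∈ {j | ∃ l, ‖s j l‖ ≠ 1}, ‖whit N χ m (f j)‖ ^ 2 ≤ A * hvol C N m) ∧
            -- the density theorem
            ((∃ M : Fin r → ℤ, ∀ i, ip C (Pi.single i 1) M = c i) → ∀ E : ℕ,
              (∀ i, ip C (Pi.single i 1) m + b ≤ c i ∧ c i ≤ ip C (Pi.single i 1) m + E) →
              (∀ l : Fin r → ℤ, (∀ i, (B * (E + 1) : ℤ) ≤ ip C (Pi.single i 1) l ∧
                  ip C (Pi.single i 1) l + B * (E + 1) ≤ c i) →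
                ∑ j, ‖∑ᶠ l' ∈ weylOrbit C l, s j l'‖ ^ 2 * ‖whit N χ m (f j)‖ ^ 2 ≤
                  A * hvol C N m) ∧
              ∀ lam : Fin r → ℤ, (∀ i, ip C (Pi.single i 1) lam = 2) → ∀ (x : ℝ) (k : ℕ),
                0 ≤ x → 0 < k → (∀ i, (B * (E + 1) : ℤ) ≤ 2 * k ∧ 2 * k + B * (E + 1) ≤ c i) →
                ∑ᶠ j ∈ {j | ∃ l ∈ weylOrbit C lam, (Nat.card K : ℝ) ^ x ≤ ‖s j l‖},
                    ‖whit N χ m (f j)‖ ^ 2 ≤
                  A * (k : ℝ) ^ B * (Nat.card K : ℝ) ^ (-(2 * x * k)) * hvol C N m)) ∧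
        -- the lower bound for the total weight
        ∀ P₀ : Polynomial K, Irreducible P₀ → P₀ ^ 4 ∣ N → ∀ e : AddChar K ℂ, e ≠ 1 →
          ∃ χ : G C K → ℂ, IsUChar N χ ∧ IsStd e P₀ N χ ∧
            IsCond χ (fun _ => (N.natDegree : ℤ) - P₀.natDegree - 2) ∧
            ((∀ g, Pub.IsCusp N g → g ∈ Submodule.span ℂ (Set.range f)) →
              ∀ m : Fin r → ℤ, (∀ i, 0 ≤ ip C (Pi.single i 1) m ∧
                ip C (Pi.single i 1) m ≤ (N.natDegree : ℤ) - P₀.natDegree - 2) →
              hvol C N m ≤ (Nat.card K : ℝ) ^ (2 * P₀.natDegree * dimG C ^ 2) *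
                ∑ j, ‖whit N χ m (f j)‖ ^ 2) :=
  WHC.H97.final C hC
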