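import Pool.Agent.Helper6_RAM.Final3
import Pool.Agent.Helper6_RAM.Pub3

/-!
# A density theorem for the Hecke operators on the cusp forms over `𝔽_q(t)`, at every place

`G` is a split simply laced group (types `A`, `D`, `E₆`, `E₇`, `E₈` and sums), `N` a nonzero
polynomial, `f_j` an orthonormal family of cusp forms of level `N` on `X = G(F) / G(𝒪)`,
`F = 𝔽_q((1/t))`.  The places are `∞` and (the set of the places dividing) a nonconstant polynomial
`P`; then `N = M L` with `M` prime to `P` and `L` a divisor of a power of `P`, and the Hecke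
operators are those of the full Hecke algebra of level `L` at `P`.  The unramified case is `L = 1`.
The cusp forms of level `N` are a finite dimensional space, and if `N` is divisible by the fourth
power of an irreducible polynomial `P₀` its dimension is at least a constant times the index of
`Γ(N)`, so that the bounds are then bounds for the proportion of the cusp forms.
-/

open scoped BigOperators

open Pool.Agent.DEN Pool.Agent.DEN.Pub

theorem Pool.Agent.Results.MP_eadad4_nt.HeckeDensityAllPlaces.result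
    {r : ℕ} (hr : 0 < r) (C : Matrix (Fin r) (Fin r) ℤ) (hC : SimplyLaced C)
    (K : Type) [Field K] [Finite K] (N : Polynomial K) (hN : N ≠ 0) :
    -- the cusp forms of level `N` are a finite dimensional space
    (∀ f : X C K → ℂ, f ∈ cuspSpace C N ↔ Pub.IsCusp N f) ∧
    Module.Finite ℂ (cuspSpace C N) ∧
    -- its dimension is at least a constant times the index of `Γ(N)`
    (∀ P₀ : Polynomial K, Irreducible P₀ → P₀ ^ 4 ∣ N →
      idx C N ≤ Nat.card K ^ ((2 * P₀.natDegree + 1) * dimG C ^ 2) * dimCusp C N) ∧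
    ∀ (n : ℕ) (f : Fin n → X C K → ℂ), (∀ j, Pub.IsCusp N (f j)) →
    (∀ i j, Pub.petersson N (f i) (f j) = if i = j then 1 else 0) →
    ∀ R : ℕ, 0 < R →
    -- the place `∞`
    (∀ κ : G C K → ℂ, Pub.HeckeInf κ R →
      (∀ lam : Fin n → ℂ, (∀ j, Pub.opInf κ (f j) = lam j • f j) → 2 * R < N.natDegree →
        ∑ j, ‖lam j‖ ^ 2 ≤ (N.natDegree : ℝ) ^ r * idx C N * Pub.normSq (Pub.maxK C K) κ) ∧
      (∀ τ σ : ℝ, 0 < τ → 0 ≤ σ → Pub.NormLE (Pub.maxK C K) κ τ →
        (∀ j, (Nat.card K : ℝ) ^ (σ * R) * τ ≤ Pub.pnorm N (Pub.opInf κ (f j))) →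
        (n : ℝ) ≤ (N.natDegree : ℝ) ^ r * idx C N *
          (Nat.card K : ℝ) ^ (-(σ * ((N.natDegree : ℝ) - 2 * R))))) ∧
    -- all places `P`, `N = M L` with `M` prime to `P` and `L` a divisor of a power of `P`
    (∀ P M L : Polynomial K, 0 < P.natDegree → IsCoprime P M → (∃ k : ℕ, L ∣ P ^ k) →
      N = M * L → ∀ κ : GP C K P → ℂ, Pub.HeckeLev P L κ R →
      (∀ lam : Fin n → ℂ, (∀ j, Pub.opLev P M L κ (f j) = lam j • f j) →
        2 * (R * P.natDegree) < M.natDegree →
        ∑ j, ‖lam j‖ ^ 2 ≤ (N.natDegree : ℝ) ^ r * idx C N * Pub.normSq (ΓL C K P L) κ) ∧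
      (∀ τ σ : ℝ, 0 < τ → 0 ≤ σ → Pub.NormLE (ΓL C K P L) κ τ →
        (∀ j, (Nat.card K : ℝ) ^ (σ * (R * P.natDegree : ℕ)) * τ ≤
          Pub.pnorm N (Pub.opLev P M L κ (f j))) →
        (n : ℝ) ≤ (N.natDegree : ℝ) ^ r * idx C N *
          (Nat.card K : ℝ) ^ (-(σ * ((M.natDegree : ℝ) - 2 * (R * P.natDegree : ℕ)))))) := by
  obtain ⟨h1, h2, -⟩ := H222.hFdm r C hC K N hN
  exact ⟨h1, h2, fun P₀ hP₀ hPN => H222.hLow r C hC K P₀ N hP₀.prime hN hPN,
    fun n f hf ho R hR => H6.finalB hr C hC K N hN n f hf ho R hR⟩
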