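import Pool.Agent.Helper2_TMP.Asm

/-!
# Temperedness of 100 % of the cusp forms over `𝔽_q(t)`, with a rate

`G` is a split simply laced group (types `A`, `D`, `E₆`, `E₇`, `E₈` and sums) over `F = 𝔽_q((1/t))`,
`X = G(F) / G(𝒪)`.  The number of the cusp forms of level `N`, in an orthonormal family of eigenforms
of all the spherical Hecke operators at the places of a finite set `S` (`none` is the place `∞`,
`some P` the place of the irreducible polynomial `P`, prime to `N`), which are not tempered at some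
place of `S`, is at most `A (∑_{v ∈ S} deg v) [Γ : Γ(N)] / deg N`, where `A` depends only on the root
system; for the levels `N` divisible by the fourth power of a fixed irreducible polynomial `P₀` the
index is at most a constant times the dimension of the space of the cusp forms of level `N`.
-/

open scoped BigOperators

open Pool.Agent.DEN Pool.Agent.DEN.Pub

theorem Pool.Agent.Results.MP_eadad4_nt.Temperedness.result
    {r : ℕ} (hr : 0 < r) (C : Matrix (Fin r) (Fin r) ℤ) (hC : SimplyLaced C) :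
    ∃ A : ℕ, ∀ (K : Type) [Field K] [Finite K] (N : Polynomial K), N ≠ 0 →
      ∀ S : Finset (Option (Polynomial K)), (∀ v ∈ S, UnrPlace N v) →
      ∀ (n : ℕ) (f : Fin n → X C K → ℂ), (∀ j, Pub.IsCusp N (f j)) →
        (∀ i j, Pub.petersson N (f i) (f j) = if i = j then 1 else 0) →
        (∀ j, ∀ v ∈ S, EigAll N (f j) v) → (∀ j, ∃ v ∈ S, ¬ Tempered N (f j) v) →
        (n : ℝ) * N.natDegree ≤ A * (∑ v ∈ S, degPlace v : ℕ) * idx C N ∧
        ∀ P₀ : Polynomial K, Irreducible P₀ → P₀ ^ 4 ∣ N →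
          (n : ℝ) * N.natDegree ≤ A * Nat.card K ^ ((2 * P₀.natDegree + 1) * dimG C ^ 2) *
            (∑ v ∈ S, degPlace v : ℕ) * dimCusp C N := by
  obtain ⟨A, hA⟩ := TMP.many_places TMP.hFini TMP.hFinf hr C hC
  refine ⟨A, fun K _ _ N hN S hS n f hf ho he ht => ?_⟩
  have h1 := hA K N hN n f hf ho S hS he ht
  refine ⟨h1, fun P₀ hP₀ hd => ?_⟩
  have h2 : idx C N ≤ Nat.card K ^ ((2 * P₀.natDegree + 1) * dimG C ^ 2) * dimCusp C N :=
    H222.hLow r C hC K P₀ N hP₀.prime hN hd
  have h3 : (idx C N : ℝ) ≤ (Nat.card K : ℝ) ^ ((2 * P₀.natDegree + 1) * dimG C ^ 2) *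
      dimCusp C N := by exact_mod_cast h2
  calc (n : ℝ) * N.natDegree ≤ A * (∑ v ∈ S, degPlace v : ℕ) * idx C N := h1
    _ ≤ A * (∑ v ∈ S, degPlace v : ℕ) * ((Nat.card K : ℝ) ^
        ((2 * P₀.natDegree + 1) * dimG C ^ 2) * dimCusp C N) :=
        mul_le_mul_of_nonneg_left h3 (by positivity)
    _ = A * Nat.card K ^ ((2 * P₀.natDegree + 1) * dimG C ^ 2) *
            (∑ v ∈ S, degPlace v : ℕ) * dimCusp C N := by ring
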